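import Pool.Agent.LRY.Stmts

/-!
# Squad LRY, row FFQ: the fields inside `ℂ` (adaptation of the row FFE of the squad LRG)
-/

set_option autoImplicit false

open Polynomial NumberField
open Pool.Agent.LRY Pool.Agent.LRG.E

namespace Pool.Agent.LRY.H41

theorem ffq : FfqStmt := by
  intro hfct hspc hire hroo hemb r₁ r₂ N a c ht hN hr
  obtain ⟨x, hx⟩ := hroo hfct hspc r₁ r₂ N a c ht hN hr
  have ho : Nonempty (Ro r₁ r₂) := by
    rcases Nat.eq_zero_or_pos r₁ with h | h
    · exact ⟨Sum.inr (⟨0, by omega⟩, true)⟩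
    · exact ⟨Sum.inl ⟨0, h⟩⟩
  obtain ⟨o₀⟩ := ho
  have hmon : (Gq a c - 1).Monic := by
    have h1 : ((Gq a c - 1).map (Int.castRingHom ℂ)).Monic := by
      rw [hx.prod]
      exact monic_prod_of_monic _ _ fun o _ => monic_X_sub_C _
    exact monic_of_injective (RingHom.injective_int _) h1
  have hroot : aeval (x o₀) (Gq a c - 1) = 0 := by
    have h1 := congrArg (Polynomial.eval (x o₀)) hx.prod
    rw [eval_prod, Finset.prod_eq_zero (Finset.mem_univ o₀) (by simp), eval_map] at h1
    exact h1
  have hint : IsIntegral ℚ (x o₀) := by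
    have h1 : IsIntegral ℤ (x o₀) := ⟨_, hmon, hroot⟩
    exact h1.tower_top
  obtain ⟨K, hK⟩ : ∃ K : IntermediateField ℚ ℂ, K = IntermediateField.adjoin ℚ {x o₀} := ⟨_, rfl⟩
  have hfin : FiniteDimensional ℚ K := by
    rw [hK]
    exact IntermediateField.adjoin.finiteDimensional hint
  have hnf : NumberField K := NumberField.mk
  have hmem : x o₀ ∈ K := by
    rw [hK]
    exact IntermediateField.subset_adjoin ℚ _ (Set.mem_singleton _)
  have hgen : IntermediateField.adjoin ℚ {(⟨x o₀, hmem⟩ : K)} = ⊤ := by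
    rw [eq_top_iff]
    rintro ⟨z, hz⟩ -
    have hz' : z ∈ IntermediateField.adjoin ℚ {x o₀} := by
      rw [← hK]
      exact hz
    have key : ∀ w (hw : w ∈ IntermediateField.adjoin ℚ {x o₀}) (hw' : w ∈ K),
        (⟨w, hw'⟩ : K) ∈ IntermediateField.adjoin ℚ {(⟨x o₀, hmem⟩ : K)} := by
      intro w hw
      induction hw using IntermediateField.adjoin_induction with
      | mem w hw =>
        intro hw'
        apply IntermediateField.subset_adjoin
        rw [Set.mem_singleton_iff]
        exact Subtype.ext (Set.mem_singleton_iff.1 hw)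
      | algebraMap q =>
        intro hw'
        have h1 := IntermediateField.algebraMap_mem
          (IntermediateField.adjoin ℚ {(⟨x o₀, hmem⟩ : K)}) q
        have h2 : (⟨algebraMap ℚ ℂ q, hw'⟩ : K) = algebraMap ℚ K q := by
          apply Subtype.ext
          simp
        rw [h2]
        exact h1
      | add u v ha hb iha ihb =>
        intro hw'
        have ha' : u ∈ K := by rw [hK]; exact ha
        have hb' : v ∈ K := by rw [hK]; exact hb
        exact add_mem (iha ha') (ihb hb')
      | inv u ha iha =>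
        intro hw'
        have ha' : u ∈ K := by rw [hK]; exact ha
        exact inv_mem (iha ha')
      | mul u v ha hb iha ihb =>
        intro hw'
        have ha' : u ∈ K := by rw [hK]; exact ha
        have hb' : v ∈ K := by rw [hK]; exact hb
        exact mul_mem (iha ha') (ihb hb')
    exact key z hz' hz
  have hroot' : aeval (⟨x o₀, hmem⟩ : K) (Gq a c - 1) = 0 := by
    apply Subtype.ext
    have h1 : ((aeval (⟨x o₀, hmem⟩ : K) (Gq a c - 1) : K) : ℂ) =
        aeval (x o₀) (Gq a c - 1) := by
      have h2 := Polynomial.hom_eval₂ (Gq a c - 1) (algebraMap ℤ K) (algebraMap K ℂ)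
        (⟨x o₀, hmem⟩ : K)
      rw [aeval_def, aeval_def]
      refine Eq.trans h2 ?_
      congr 1
    rw [h1, hroot]
    rfl
  obtain ⟨e, he⟩ := hemb hfct r₁ r₂ N a c x ht hx (hire hfct hspc r₁ r₂ N a c ht hN hr) K
    (⟨x o₀, hmem⟩ : K) hgen hroot'
  exact ⟨K, hnf, x, ⟨x o₀, hmem⟩, e, he⟩

end Pool.Agent.LRY.H41
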